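import Pool.Agent.H38.LR.T3997.Q148.BA.FL

/-! Counting the elements of a sequence with a divisor and without small prime factors. -/

set_option autoImplicit false

namespace Pool.Agent.Q148.BA

open Finset
open Pool.Agent.Y882

/-- the number of the `n ∈ S` with `q ∣ v n` -/
noncomputable def A (S : Finset ℕ) (v : ℕ → ℕ) (q : ℕ) : ℝ := ((S.filter (fun n => q ∣ v n)).card : ℝ)

open Classical in
/-- the number of the `n ∈ S` with `q ∣ v n` for which no `p ∈ P` divides `v n` -/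
noncomputable def B (S : Finset ℕ) (v : ℕ → ℕ) (q : ℕ) (P : Finset ℕ) : ℝ :=
  ((S.filter (fun n => q ∣ v n ∧ ∀ p ∈ P, ¬ p ∣ v n)).card : ℝ)

/-- the values `v n`, `n ∈ S`, have the density `g`, with the error terms `r` -/
structure Dens (S : Finset ℕ) (v : ℕ → ℕ) (X : ℝ) (g r : ℕ → ℝ) : Prop where
  h : ∀ q, 1 ≤ q → |A S v q - X * g q| ≤ r q
  mul : ∀ q q' : ℕ, q.Coprime q' → g (q * q') = g q * g q'
  one : g 1 = 1
  nn : ∀ p a : ℕ, p.Prime → 0 ≤ g (p ^ a)
  pow : ∀ p a : ℕ, p.Prime → 1 ≤ a → g (p ^ a) ≤ 2 / (p : ℝ) ^ a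
  p1 : ∀ p : ℕ, p.Prime → g p ≤ 1 / ((p : ℝ) - 1)
  half : ∀ p : ℕ, p.Prime → g p ≤ 1 / 2
  X0 : 0 ≤ X

variable {S : Finset ℕ} {v : ℕ → ℕ} {X : ℝ} {g r : ℕ → ℝ}

theorem Dens.nn1 (H : Dens S v X g r) {p : ℕ} (hp : p.Prime) : 0 ≤ g p := by
  have := H.nn p 1 hp
  rwa [pow_one] at this

theorem Dens.r0 (H : Dens S v X g r) {q : ℕ} (hq : 1 ≤ q) : 0 ≤ r q := (abs_nonneg _).trans (H.h q hq)

theorem Dens.prod (H : Dens S v X g r) (q0 : ℕ) (T : Finset ℕ) (hT : ∀ p ∈ T, p.Prime)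
    (hc : ∀ p ∈ T, ¬ p ∣ q0) : g (q0 * ∏ p ∈ T, p) = g q0 * ∏ p ∈ T, g p := by
  classical
  induction T using Finset.induction_on with
  | empty => simp
  | insert p T hpT ih =>
    rw [prod_insert hpT, prod_insert hpT]
    have h1 : q0 * (p * ∏ x ∈ T, x) = (q0 * ∏ x ∈ T, x) * p := by ring
    have hp := hT p (mem_insert_self _ _)
    have h2 : (q0 * ∏ x ∈ T, x).Coprime p := by
      apply Nat.Coprime.mul_left
      · exact ((Nat.Prime.coprime_iff_not_dvd hp).2 (hc p (mem_insert_self _ _))).symm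
      · apply Nat.Coprime.prod_left
        intro x hx
        apply (Nat.coprime_primes (hT x (mem_insert_of_mem hx)) hp).2
        rintro rfl
        exact hpT hx
    rw [h1, H.mul _ _ h2, ih (fun x hx => hT x (mem_insert_of_mem hx))
      (fun x hx => hc x (mem_insert_of_mem hx))]
    ring

/-- the sum of the error terms -/
noncomputable def Rs (r : ℕ → ℝ) (q : ℕ) (P : Finset ℕ) (Y : ℕ) : ℝ :=
  ∑ T ∈ P.powerset.filter (fun T => ∏ p ∈ T, p ≤ Y), r (q * ∏ p ∈ T, p)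

theorem prodT_dvd (T : Finset ℕ) (hT : ∀ p ∈ T, p.Prime) (m : ℕ) :
    (∏ p ∈ T, p) ∣ m ↔ ∀ p ∈ T, p ∣ m := by
  constructor
  · intro h p hp
    exact (dvd_prod_of_mem _ hp).trans h
  · intro h
    exact Finset.prod_primes_dvd m (fun p hp => (hT p hp).prime) h

open Classical in
theorem cnt : ∃ C : ℕ, 1 ≤ C ∧ ∀ (b J : ℕ) (P : Finset ℕ), C ≤ b →
    (∀ p ∈ P, p.Prime ∧ p ≤ 2 ^ 2 ^ J) → ∀ (S : Finset ℕ) (v : ℕ → ℕ) (X : ℝ) (g r : ℕ → ℝ),
    Dens S v X g r → ∀ q : ℕ, 1 ≤ q → 0 ≤ g q → (∀ p ∈ P, ¬ p ∣ q) →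
    |B S v q P - X * (g q * ∏ p ∈ P, (1 - g p))| ≤
      (1 / 2 : ℝ) ^ b * (X * (g q * ∏ p ∈ P, (1 - g p))) +
        (J + 1) * Rs r q P (C * (2 ^ 2 ^ J) ^ (C * b)) := by
  obtain ⟨C, hC, HF⟩ := flf
  refine ⟨C, hC, fun b J P hb hP S v X g r H q hq hgq hcop => ?_⟩
  obtain ⟨wU, wL, w1, w2, w3, w4⟩ := HF b J P hb hP
  obtain ⟨m1, m2⟩ := w4 g (fun p hp => ⟨H.nn1 (hP p hp).1, H.p1 p (hP p hp).1⟩)
  set V := ∏ p ∈ P, (1 - g p) with hV
  set Y := C * (2 ^ 2 ^ J) ^ (C * b) with hY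
  have hJ0 : (0 : ℝ) ≤ J + 1 := by positivity
  -- the sums of the weights
  have key : ∀ w : Finset ℕ → ℝ, (∀ T, |w T| ≤ J + 1) → (∀ T ⊆ P, w T ≠ 0 → ∏ p ∈ T, p ≤ Y) →
      |∑ n ∈ S.filter (fun n => q ∣ v n), VV P w (fun p => if p ∣ v n then 1 else 0) -
        X * (g q * VV P w g)| ≤ (J + 1) * Rs r q P Y := by
    intro w hw1 hw2
    have e1 : ∑ n ∈ S.filter (fun n => q ∣ v n), VV P w (fun p => if p ∣ v n then 1 else 0) =
        ∑ T ∈ P.powerset, w T * A S v (q * ∏ p ∈ T, p) := by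
      unfold VV
      rw [sum_comm]
      apply sum_congr rfl
      intro T hT
      rw [mem_powerset] at hT
      rw [← mul_sum]
      congr 1
      unfold A
      rw [card_filter, Nat.cast_sum, sum_filter]
      apply sum_congr rfl
      intro n _
      rw [prod_ind]
      have h2 : (q * ∏ p ∈ T, p ∣ v n) ↔ (q ∣ v n ∧ ∀ p ∈ T, p ∣ v n) := by
        rw [← prodT_dvd T (fun p hp => (hP p (hT hp)).1)]
        constructor
        · intro h
          exact ⟨(dvd_mul_right _ _).trans h, (dvd_mul_left _ _).trans h⟩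
        · rintro ⟨h3, h4⟩
          apply Nat.Coprime.mul_dvd_of_dvd_of_dvd _ h3 h4
          apply Nat.Coprime.prod_right
          intro p hp
          exact ((Nat.Prime.coprime_iff_not_dvd (hP p (hT hp)).1).2 (hcop p (hT hp))).symm
      by_cases h3 : q ∣ v n
      · by_cases h4 : ∀ p ∈ T, p ∣ v n
        · rw [if_pos h3, if_pos h4, if_pos (h2.2 ⟨h3, h4⟩)]
          norm_num
        · rw [if_pos h3, if_neg h4, if_neg (fun h => h4 (h2.1 h).2)]
          norm_num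
      · rw [if_neg h3, if_neg (fun h => h3 (h2.1 h).1)]
        norm_num
    have e2 : X * (g q * VV P w g) = ∑ T ∈ P.powerset, w T * (X * g (q * ∏ p ∈ T, p)) := by
      unfold VV
      rw [mul_sum, mul_sum]
      apply sum_congr rfl
      intro T hT
      rw [mem_powerset] at hT
      rw [H.prod q T (fun p hp => (hP p (hT hp)).1) (fun p hp => hcop p (hT hp))]
      ring
    rw [e1, e2, ← sum_sub_distrib]
    refine (abs_sum_le_sum_abs _ _).trans ?_
    unfold Rs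
    rw [mul_sum, sum_filter]
    apply sum_le_sum
    intro T hT
    rw [mem_powerset] at hT
    have hT1 : 1 ≤ ∏ p ∈ T, p := Nat.one_le_iff_ne_zero.2 (prod_ne_zero_iff.2 fun p hp =>
      (hP p (hT hp)).1.ne_zero)
    have hq1 : 1 ≤ q * ∏ p ∈ T, p := Nat.one_le_iff_ne_zero.2 (Nat.mul_ne_zero (by omega) (by omega))
    rw [← mul_sub, abs_mul]
    split_ifs with h
    · exact mul_le_mul (hw1 T) (H.h _ hq1) (abs_nonneg _) hJ0
    · have : w T = 0 := by
        by_contra h0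
        exact h (hw2 T hT h0)
      rw [this, abs_zero, zero_mul]
  have hB : B S v q P = ∑ n ∈ S.filter (fun n => q ∣ v n), (if ∀ p ∈ P, ¬ p ∣ v n then (1 : ℝ) else 0) := by
    unfold B
    rw [← filter_filter, card_filter, Nat.cast_sum]
    apply sum_congr rfl
    intro n _
    push_cast
    rfl
  have kU := key wU (fun T => (w1 T).1) (fun T hT h0 => w2 T hT (Or.inl h0))
  have kL := key wL (fun T => (w1 T).2) (fun T hT h0 => w2 T hT (Or.inr h0))
  have uB : B S v q P ≤ ∑ n ∈ S.filter (fun n => q ∣ v n), VV P wU (fun p => if p ∣ v n then 1 else 0) := by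
    rw [hB]
    exact sum_le_sum fun n _ => (w3 _).2
  have lB : ∑ n ∈ S.filter (fun n => q ∣ v n), VV P wL (fun p => if p ∣ v n then 1 else 0) ≤ B S v q P := by
    rw [hB]
    exact sum_le_sum fun n _ => (w3 _).1
  have hXg : 0 ≤ X * g q := mul_nonneg H.X0 hgq
  have n1 := mul_le_mul_of_nonneg_left m1 hXg
  have n2 := mul_le_mul_of_nonneg_left m2 hXg
  rw [abs_le] at kU kL ⊢
  constructor
  · have : X * g q * ((1 - (1 / 2 : ℝ) ^ b) * V) = X * (g q * V) - (1 / 2 : ℝ) ^ b * (X * (g q * V)) := by ring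
    rw [this] at n1
    have h3 : X * g q * VV P wL g = X * (g q * VV P wL g) := by ring
    rw [h3] at n1
    linarith [kL.1]
  · have : X * g q * ((1 + (1 / 2 : ℝ) ^ b) * V) = X * (g q * V) + (1 / 2 : ℝ) ^ b * (X * (g q * V)) := by ring
    rw [this] at n2
    have h3 : X * g q * VV P wU g = X * (g q * VV P wU g) := by ring
    rw [h3] at n2
    linarith [kU.2]

end Pool.Agent.Q148.BA
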