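import Pool.Agent.H38.LR.T3997.Q148.BA.Cnt
import Pool.Agent.H38.LR.S8.H305R2.MertensE
import Pool.Agent.H38.LR.S8.H305R2.AE2

/-! Sums over integers without small prime factors. -/

set_option autoImplicit false

namespace Pool.Agent.Q148.BA

open Finset Filter

/-- no prime factor `≤ z` -/
def Rough (z m : ℕ) : Prop := ∀ p : ℕ, p.Prime → p ≤ z → ¬ p ∣ m

/-- the primes `≤ z` -/
def PP (z : ℕ) : Finset ℕ := (Icc 1 z).filter Nat.Prime

open Classical in
/-- the squarefree integers `≤ D` without prime factors `≤ z` -/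
noncomputable def DD (z D : ℕ) : Finset ℕ := (Icc 1 D).filter (fun d => Squarefree d ∧ Rough z d)

theorem mem_PP {z p : ℕ} : p ∈ PP z ↔ p.Prime ∧ p ≤ z := by
  unfold PP
  rw [mem_filter, mem_Icc]
  exact ⟨fun h => ⟨h.2, h.1.2⟩, fun h => ⟨⟨h.1.one_le, h.2⟩, h.1⟩⟩

open Classical in
theorem mem_DD {z D d : ℕ} : d ∈ DD z D ↔ (1 ≤ d ∧ d ≤ D) ∧ Squarefree d ∧ Rough z d := by
  unfold DD
  rw [mem_filter, mem_Icc]

theorem sum_inj {ι : Type} (s : Finset ι) (f : ι → ℕ) (t : Finset ℕ) (r : ℕ → ℝ)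
    (hr : ∀ m ∈ t, 0 ≤ r m) (hinj : ∀ x ∈ s, ∀ y ∈ s, f x = f y → x = y) (hmap : ∀ x ∈ s, f x ∈ t) :
    ∑ x ∈ s, r (f x) ≤ ∑ m ∈ t, r m := by
  classical
  rw [← sum_image (s := s) (g := f) (f := r) (fun x hx y hy h => hinj x hx y hy h)]
  apply sum_le_sum_of_subset_of_nonneg
  · intro m hm
    rw [mem_image] at hm
    obtain ⟨x, hx, rfl⟩ := hm
    exact hmap x hx
  · intro m hm _
    exact hr m hm

theorem mem_of_dvd_prod {p : ℕ} (hp : p.Prime) (T : Finset ℕ) (hT : ∀ x ∈ T, x.Prime)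
    (h : p ∣ ∏ x ∈ T, x) : p ∈ T := by
  obtain ⟨x, hx, hpx⟩ := (Prime.dvd_finsetProd_iff hp.prime _).1 h
  have := (Nat.prime_dvd_prime_iff_eq hp (hT x hx)).1 hpx
  subst this
  exact hx

/-- the error terms, first sum -/
theorem errsum1 (r : ℕ → ℝ) (hr : ∀ m, 1 ≤ m → 0 ≤ r m) (z D Y : ℕ) :
    ∑ q ∈ DD z D, Rs r q (PP z) Y ≤ ∑ m ∈ Icc 1 (D * Y), r m := by
  classical
  unfold Rs
  rw [sum_sigma']
  apply sum_inj _ (fun x : (_ : ℕ) × Finset ℕ => x.1 * ∏ p ∈ x.2, p) (Icc 1 (D * Y)) r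
    (fun m hm => hr m (mem_Icc.1 hm).1)
  · rintro ⟨q, T⟩ hx ⟨q', T'⟩ hy hxy
    rw [mem_sigma, mem_filter, mem_powerset] at hx hy
    simp only at hx hy hxy
    obtain ⟨hq, hT, _⟩ := hx
    obtain ⟨hq', hT', _⟩ := hy
    rw [mem_DD] at hq hq'
    have hTp : ∀ x ∈ T, x.Prime := fun x hx => (mem_PP.1 (hT hx)).1
    have hTp' : ∀ x ∈ T', x.Prime := fun x hx => (mem_PP.1 (hT' hx)).1
    have hTT : T = T' := by
      ext p
      constructor
      · intro hp
        have h1 : p ∣ q' * ∏ x ∈ T', x := hxy ▸ (dvd_prod_of_mem _ hp).mul_left q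
        rcases ((hTp p hp).dvd_mul).1 h1 with h2 | h2
        · exact absurd h2 (hq'.2.2 p (hTp p hp) (mem_PP.1 (hT hp)).2)
        · exact mem_of_dvd_prod (hTp p hp) T' hTp' h2
      · intro hp
        have h1 : p ∣ q * ∏ x ∈ T, x := hxy ▸ (dvd_prod_of_mem _ hp).mul_left q'
        rcases ((hTp' p hp).dvd_mul).1 h1 with h2 | h2
        · exact absurd h2 (hq.2.2 p (hTp' p hp) (mem_PP.1 (hT' hp)).2)
        · exact mem_of_dvd_prod (hTp' p hp) T hTp h2
    subst hTT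
    have h0 : 0 < ∏ x ∈ T, x := prod_pos fun x hx => (hTp x hx).pos
    have := Nat.eq_of_mul_eq_mul_right h0 hxy
    subst this
    rfl
  · rintro ⟨q, T⟩ hx
    rw [mem_sigma, mem_filter, mem_powerset] at hx
    simp only at hx ⊢
    obtain ⟨hq, hT, hY⟩ := hx
    rw [mem_DD] at hq
    rw [mem_Icc]
    have h0 : 0 < ∏ x ∈ T, x := prod_pos fun x hx => (mem_PP.1 (hT hx)).1.pos
    exact ⟨Nat.mul_pos (by omega) h0, Nat.mul_le_mul hq.1.2 hY⟩

open Classical in
/-- the prime powers `p ^ a ≤ Z`, `p ≤ z` -/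
noncomputable def KK (z Z : ℕ) : Finset (ℕ × ℕ) :=
  ((PP z) ×ˢ (Icc 1 Z)).filter (fun x => x.1 ^ x.2 ≤ Z)

/-- the error terms, second sum -/
theorem errsum2 (r : ℕ → ℝ) (hr : ∀ m, 1 ≤ m → 0 ≤ r m) (z Z w Y : ℕ) :
    ∑ x ∈ KK z Z, Rs r (x.1 ^ x.2) ((PP w).erase x.1) Y ≤
      ∑ m ∈ Icc 1 (Z * Y), (m.primeFactors.card : ℝ) * r m := by
  classical
  unfold Rs
  rw [sum_sigma']
  have e : ∑ m ∈ Icc 1 (Z * Y), (m.primeFactors.card : ℝ) * r m =
      ∑ y ∈ (Icc 1 (Z * Y)).sigma (fun m => m.primeFactors), r y.1 := by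
    rw [sum_sigma]
    apply sum_congr rfl
    intro m _
    simp
  rw [e]
  have e2 : ∑ x ∈ (KK z Z).sigma (fun x => (((PP w).erase x.1).powerset.filter
      (fun T => ∏ p ∈ T, p ≤ Y))), r (x.1.1 ^ x.1.2 * ∏ p ∈ x.2, p) =
      ∑ y ∈ ((KK z Z).sigma (fun x => (((PP w).erase x.1).powerset.filter
      (fun T => ∏ p ∈ T, p ≤ Y)))).image (fun x => (⟨x.1.1 ^ x.1.2 * ∏ p ∈ x.2, p, x.1.1⟩ : (_ : ℕ) × ℕ)),
      r y.1 := by
    rw [sum_image]
    rintro ⟨⟨p, a⟩, T⟩ hx ⟨⟨p', a'⟩, T'⟩ hy hxy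
    rw [Finset.mem_coe, mem_sigma, mem_filter, mem_powerset] at hx hy
    simp only [Sigma.mk.injEq, heq_eq_eq] at hx hy hxy
    obtain ⟨hpa, hT, _⟩ := hx
    obtain ⟨hpa', hT', _⟩ := hy
    obtain ⟨h1, h2⟩ := hxy
    subst h2
    unfold KK at hpa hpa'
    rw [mem_filter, mem_product] at hpa hpa'
    have hp := (mem_PP.1 hpa.1.1).1
    simp only at hp h1
    have hTp : ∀ x ∈ T, x.Prime := fun x hx => (mem_PP.1 (mem_of_mem_erase (hT hx))).1
    have hTp' : ∀ x ∈ T', x.Prime := fun x hx => (mem_PP.1 (mem_of_mem_erase (hT' hx))).1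
    have hn : ¬ p ∣ ∏ x ∈ T, x := fun h => (notMem_erase p (PP w)) (hT (mem_of_dvd_prod hp T hTp h))
    have hn' : ¬ p ∣ ∏ x ∈ T', x := fun h => (notMem_erase p (PP w)) (hT' (mem_of_dvd_prod hp T' hTp' h))
    have haa : a = a' := by
      rcases lt_trichotomy a a' with h | h | h
      · exfalso
        apply hn
        obtain ⟨c, rfl⟩ := Nat.exists_eq_add_of_lt h
        have h3 : p ^ (a + c + 1) = p ^ a * (p * p ^ c) := by ring
        rw [h3, mul_assoc] at h1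
        have h4 := Nat.eq_of_mul_eq_mul_left (Nat.pow_pos hp.pos) h1
        rw [h4, mul_assoc]
        exact dvd_mul_right _ _
      · exact h
      · exfalso
        apply hn'
        obtain ⟨c, rfl⟩ := Nat.exists_eq_add_of_lt h
        have h3 : p ^ (a' + c + 1) = p ^ a' * (p * p ^ c) := by ring
        rw [h3, mul_assoc] at h1
        have h4 := Nat.eq_of_mul_eq_mul_left (Nat.pow_pos hp.pos) h1
        rw [← h4, mul_assoc]
        exact dvd_mul_right _ _
    subst haa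
    have h5 := Nat.eq_of_mul_eq_mul_left (Nat.pow_pos hp.pos) h1
    have hTT : T = T' := by
      ext x
      constructor
      · intro hx
        exact mem_of_dvd_prod (hTp x hx) T' hTp' (h5 ▸ dvd_prod_of_mem _ hx)
      · intro hx
        exact mem_of_dvd_prod (hTp' x hx) T hTp (h5 ▸ dvd_prod_of_mem _ hx)
    subst hTT
    rfl
  rw [e2]
  apply sum_le_sum_of_subset_of_nonneg
  · intro y hy
    rw [mem_image] at hy
    obtain ⟨⟨⟨p, a⟩, T⟩, hx, rfl⟩ := hy
    rw [mem_sigma, mem_filter, mem_powerset] at hx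
    obtain ⟨hpa, hT, hY⟩ := hx
    unfold KK at hpa
    rw [mem_filter, mem_product, mem_Icc] at hpa
    simp only at hpa hT hY ⊢
    have hp := (mem_PP.1 hpa.1.1).1
    have h0 : 0 < ∏ x ∈ T, x := prod_pos fun x hx => (mem_PP.1 (mem_of_mem_erase (hT hx))).1.pos
    have h1 : 0 < p ^ a * ∏ x ∈ T, x := Nat.mul_pos (Nat.pow_pos hp.pos) h0
    rw [mem_sigma, mem_Icc, Nat.mem_primeFactors]
    refine ⟨⟨h1, Nat.mul_le_mul hpa.2 hY⟩, hp, ?_, h1.ne'⟩
    exact (dvd_pow_self p (by omega)).mul_right _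
  · intro y hy _
    rw [mem_sigma, mem_Icc] at hy
    exact hr _ hy.1.1

theorem card_pf (m M : ℕ) (hm : 1 ≤ m) (h : m ≤ M) : (m.primeFactors.card : ℝ) ≤ 2 * Real.log M := by
  have h1 : 2 ^ m.primeFactors.card ≤ m := by
    calc 2 ^ m.primeFactors.card = ∏ _p ∈ m.primeFactors, 2 := by rw [prod_const]
      _ ≤ ∏ p ∈ m.primeFactors, p := prod_le_prod' fun p hp => (Nat.prime_of_mem_primeFactors hp).two_le
      _ ≤ m := Nat.le_of_dvd hm (Nat.prod_primeFactors_dvd m)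
  have h2 : ((2 : ℝ) ^ m.primeFactors.card) ≤ M := by exact_mod_cast h1.trans h
  have h3 := Real.log_le_log (by positivity) h2
  rw [Real.log_pow] at h3
  have h4 := Real.log_two_gt_d9
  have h5 : (0 : ℝ) ≤ m.primeFactors.card := Nat.cast_nonneg _
  nlinarith

/-- the number of the prime factors of an integer without small prime factors -/
theorem card_rough (z m M K : ℕ) (hz : 1 ≤ z) (hm : 1 ≤ m) (h : m ≤ M) (hr : Rough z m) (hK : M < z ^ K) :
    m.primeFactors.card ≤ K := by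
  have h1 : z ^ m.primeFactors.card ≤ m := by
    calc z ^ m.primeFactors.card = ∏ _p ∈ m.primeFactors, z := by rw [prod_const]
      _ ≤ ∏ p ∈ m.primeFactors, p := prod_le_prod' fun p hp => by
          have := hr p (Nat.prime_of_mem_primeFactors hp)
          by_contra hcon
          exact this (by omega) (Nat.dvd_of_mem_primeFactors hp)
      _ ≤ m := Nat.le_of_dvd hm (Nat.prod_primeFactors_dvd m)
  by_contra hcon
  have h2 : z ^ K ≤ z ^ m.primeFactors.card := Nat.pow_le_pow_right hz (by omega)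
  omega

/-- the number of the squarefree divisors -/
theorem card_sqf_div (m : ℕ) (hm : m ≠ 0) (s : Finset ℕ) (hs : ∀ d ∈ s, Squarefree d ∧ d ∣ m) :
    s.card ≤ 2 ^ m.primeFactors.card := by
  classical
  rw [← card_powerset]
  apply card_le_card_of_injOn (fun d => d.primeFactors)
  · intro d hd
    have h1 := hs d hd
    simp only [Finset.coe_powerset, Set.mem_preimage, Set.mem_powerset_iff, Finset.coe_subset]
    exact Nat.primeFactors_mono h1.2 hm
  · intro d hd d' hd' h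
    have h1 := hs d hd
    have h2 := hs d' hd'
    rw [← Nat.prod_primeFactors_of_squarefree h1.1, ← Nat.prod_primeFactors_of_squarefree h2.1]
    simp only at h
    rw [h]

end Pool.Agent.Q148.BA
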